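import Pool.Agent.H94.SunFourth

/-!
# Sun's congruence for weighted sums of power sums of binomial coefficients

For all `r n : ℕ`, the integer `2 n` divides
`∑_{k<n} (-1)^(r k) (3 k + 2) ∑_{j ≤ k} (k choose j)^r`.
The case `r = 4` (where the sign is `+1`) is the posed question Q1.

The proof (in `Pool.Agent.H94.SunFourth`) is by a `q`-analogue.  With `B(i,j)` the Gaussian
binomial `[i+j choose i]_q` put `N(i,j) = (-1)^(i+j) q^(i(i+1)/2 + j(j+1)/2) B(i,j)`.  At a
primitive `d`-th root of unity, `d ∣ n`, the function `N` is invariant under exchanging the lowest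
base-`d` digits of `i` and of `l = n - 1 - i - j`, so the twisted sum
`∑_{i+j+l=n-1} ([i]_q - [l]_q) N(i,j)^r` vanishes there; hence it is divisible by
`1 + q + ... + q^(n-1)` in `ℤ[q]`, and one puts `q = 1`.
-/

namespace Pool.Agent.Results.MP_7c66d8_nt.SunFourth

open Finset

/-- For all `r` and `n`, `2 n` divides `∑_{k<n} (-1)^(r k) (3 k + 2) ∑_{j ≤ k} (k choose j)^r`. -/
theorem result (r n : ℕ) :
    (2 * n : ℤ) ∣ ∑ k ∈ range n, (-1 : ℤ) ^ (r * k) * (3 * k + 2) *
      ∑ j ∈ range (k + 1), (k.choose j : ℤ) ^ r :=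
  Pool.Agent.H94.SunFourth.main r n

end Pool.Agent.Results.MP_7c66d8_nt.SunFourth
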